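import Pool.Agent.Helper2.EC_C.Goals

/-!
# MP_ecc237_nt, PART C, packet RV
-/

set_option autoImplicit false

open MeasureTheory Filter Topology Set

namespace ECC.PkRV

open EC237 ECC

lemma phi_image : (fun t : ℝ => 4 / (1 - t ^ 2)) '' (Ioo (0:ℝ) 1) = Ioi 4 := by
  ext v
  simp only [mem_image, mem_Ioo, mem_Ioi]
  constructor
  · rintro ⟨t, ⟨h0, h1⟩, rfl⟩
    have hs : 0 < 1 - t ^ 2 := by nlinarith
    rw [lt_div_iff₀ hs]
    nlinarith [sq_nonneg t, mul_pos h0 h0]
  · intro hv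
    have hv0 : (0:ℝ) < v := by linarith
    have h4 : 4 / v < 1 := by rw [div_lt_one hv0]; exact hv
    have h4' : 0 < 4 / v := by positivity
    have hpos : 0 < 1 - 4 / v := by linarith
    refine ⟨Real.sqrt (1 - 4 / v), ⟨Real.sqrt_pos.mpr hpos, ?_⟩, ?_⟩
    · rw [Real.sqrt_lt' one_pos]; linarith
    · rw [Real.sq_sqrt hpos.le]
      have : 1 - (1 - 4 / v) = 4 / v := by ring
      rw [this]
      field_simp

lemma phi_inj : InjOn (fun t : ℝ => 4 / (1 - t ^ 2)) (Ioo (0:ℝ) 1) := by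
  intro a ha b hb h
  have hsa : 0 < 1 - a ^ 2 := by nlinarith [ha.1, ha.2]
  have hsb : 0 < 1 - b ^ 2 := by nlinarith [hb.1, hb.2]
  simp only at h
  rw [div_eq_div_iff hsa.ne' hsb.ne'] at h
  have hab : (a - b) * (a + b) = 0 := by nlinarith
  rcases mul_eq_zero.mp hab with h1 | h1
  · linarith
  · linarith [ha.1, hb.1]

theorem rv : G_RV := by
  intro x
  set w : ℝ := x ^ 2 with hw
  have hw0 : 0 ≤ w := sq_nonneg x
  unfold rr rho
  rw [intervalIntegral.integral_of_le zero_le_one, integral_Ioc_eq_integral_Ioo, ← phi_image]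
  rw [integral_image_eq_integral_abs_deriv_smul (f' := fun t : ℝ => 8 * t / (1 - t ^ 2) ^ 2)
    measurableSet_Ioo _ phi_inj]
  · apply setIntegral_congr_fun measurableSet_Ioo
    intro t ht
    have h0 : 0 < t := ht.1
    have h1 : t < 1 := ht.2
    have hs : 0 < 1 - t ^ 2 := by nlinarith
    have hD : 0 < Dtw t w := by
      unfold Dtw
      have : 0 < 5 - t ^ 2 := by nlinarith
      positivity
    have hkey : (4 / (1 - t ^ 2)) * (4 / (1 - t ^ 2) - 4) *
        ((4 / (1 - t ^ 2) + w - 1) ^ 2 + 4 * w) = (4 * t / (1 - t ^ 2) ^ 2) ^ 2 * Dtw t w := by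
      unfold Dtw
      field_simp
      ring
    simp only [smul_eq_mul]
    rw [← hw, hkey, Real.sqrt_mul (by positivity), Real.sqrt_sq (by positivity),
      abs_of_pos (by positivity)]
    have hq : 0 < Real.sqrt (Dtw t w) := Real.sqrt_pos.mpr hD
    field_simp
    ring
  · intro t ht
    have h0 : 0 < t := ht.1
    have h1 : t < 1 := ht.2
    have hs : 0 < 1 - t ^ 2 := by nlinarith
    have h2 : HasDerivAt (fun t : ℝ => 1 - t ^ 2) (-(2 * t)) t := by
      have := (hasDerivAt_pow 2 t).const_sub 1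
      simpa using this
    have h3 := (h2.fun_inv hs.ne').const_mul 4
    have h4 : HasDerivAt (fun t : ℝ => 4 / (1 - t ^ 2)) (8 * t / (1 - t ^ 2) ^ 2) t := by
      have e1 : (fun t : ℝ => 4 / (1 - t ^ 2)) = fun y : ℝ => 4 * (1 - y ^ 2)⁻¹ := by
        funext y
        rw [div_eq_mul_inv]
      have e2 : 8 * t / (1 - t ^ 2) ^ 2 = 4 * (- -(2 * t) / (1 - t ^ 2) ^ 2) := by
        ring
      rw [e1, e2]
      exact h3
    exact h4.hasDerivWithinAt

end ECC.PkRV

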